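import Pool.Agent.Lib.MP_7470ba_co.Final

/-!
A constructible simplicial 3-sphere which is not shellable.
-/

set_option autoImplicit false

open Pool.Agent.Lib.MP_7470ba_co

namespace Pool.Agent.Results.MP_7470ba_co.ThreeSphere

variable {n : ℕ}

/-- A set of faces which is closed under taking subsets and contains the empty face: a finite
simplicial complex with vertices in `Fin n`. -/
def IsComplex (C : Set (Finset (Fin n))) : Prop :=
  ∅ ∈ C ∧ ∀ σ ∈ C, ∀ ρ ⊆ σ, ρ ∈ C

/-- pure complexes of dimension `d` -/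
def IsPure (d : ℕ) (C : Set (Finset (Fin n))) : Prop :=
  IsComplex C ∧ ∀ ρ ∈ C, ∃ σ ∈ C, ρ ⊆ σ ∧ σ.card = d + 1

/-- constructible complexes of dimension `d` -/
inductive Constructible : ℕ → Set (Finset (Fin n)) → Prop
  | simplex (d : ℕ) (σ : Finset (Fin n)) (h : σ.card = d + 1) : Constructible d {ρ | ρ ⊆ σ}
  | zero (C : Set (Finset (Fin n))) (h : IsPure 0 C) : Constructible 0 C
  | union (d : ℕ) (C₁ C₂ : Set (Finset (Fin n))) (h₁ : Constructible (d + 1) C₁)
      (h₂ : Constructible (d + 1) C₂) (h : Constructible d (C₁ ∩ C₂)) :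
      Constructible (d + 1) (C₁ ∪ C₂)

/-- shellable complexes of dimension `d ≥ 1`: there is a linear order of the facets such that the
intersection of every facet but the first with the union of the earlier ones is a pure complex of
dimension `d - 1` -/
def Shellable (d : ℕ) (C : Set (Finset (Fin n))) : Prop :=
  IsPure d C ∧ ∃ (m : ℕ) (F : Fin m → Finset (Fin n)), Function.Injective F ∧
    (∀ σ, (∃ j, F j = σ) ↔ σ ∈ C ∧ σ.card = d + 1) ∧
    ∀ j : Fin m, (j : ℕ) ≠ 0 → IsPure (d - 1) {ρ | ρ ⊆ F j ∧ ∃ i < j, ρ ⊆ F i}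

/-- the geometric realization -/
def Realization (C : Set (Finset (Fin n))) : Set (Fin n → ℝ) :=
  {x | (∀ i, 0 ≤ x i) ∧ ∑ i, x i = 1 ∧ ∃ σ ∈ C, ∀ i, i ∈ σ ↔ x i ≠ 0}

/-- the faces of a family of facets -/
def cl (F : Finset (Finset (Fin n))) : Set (Finset (Fin n)) := {ρ | ∃ σ ∈ F, ρ ⊆ σ}

lemma cl_pure {F : Finset (Finset (Fin n))} {d : ℕ} (hF : F.Nonempty)
    (hc : ∀ σ ∈ F, σ.card = d + 1) : IsPure d (cl F) := by
  obtain ⟨σ0, h0⟩ := hF
  refine ⟨⟨⟨σ0, h0, Finset.empty_subset _⟩, ?_⟩, ?_⟩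
  · rintro σ ⟨τ, hτ, h1⟩ ρ hρ
    exact ⟨τ, hτ, hρ.trans h1⟩
  · rintro ρ ⟨σ, hσ, h1⟩
    exact ⟨σ, ⟨σ, hσ, Finset.Subset.refl _⟩, h1, hc σ hσ⟩

/-- the predicate used for the induction -/
def Q (k : ℕ) (F : Finset (Finset (Fin 18))) : Prop :=
  F.Nonempty ∧ (1 ≤ k → Constructible (k - 1) (cl F))

lemma closed_Q : Closed Q := by
  refine ⟨fun σ => ⟨Finset.singleton_nonempty σ, fun h => ?_⟩, ?_⟩
  · have h1 : cl {σ} = {ρ | ρ ⊆ σ} := by
      ext ρ
      simp [cl]
    rw [h1]
    exact Constructible.simplex _ σ (by omega)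
  · intro k F₁ F₂ G hk h1 h2 hF₁ hF₂ hG hρ hQ
    refine ⟨hF₁.1.mono Finset.subset_union_left, fun _ => ?_⟩
    have hcl : cl (F₁ ∪ F₂) = cl F₁ ∪ cl F₂ := by
      ext ρ
      simp only [cl, Set.mem_union, Set.mem_ofPred_eq, Finset.mem_union]
      constructor
      · rintro ⟨σ, hσ | hσ, h⟩
        · exact Or.inl ⟨σ, hσ, h⟩
        · exact Or.inr ⟨σ, hσ, h⟩
      · rintro (⟨σ, hσ, h⟩ | ⟨σ, hσ, h⟩)
        · exact ⟨σ, Or.inl hσ, h⟩
        · exact ⟨σ, Or.inr hσ, h⟩
    obtain rfl | ⟨l, rfl⟩ : k = 1 ∨ ∃ l, k = l + 2 := by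
      rcases Nat.lt_or_ge k 2 with h | h
      · exact Or.inl (by omega)
      · exact Or.inr ⟨k - 2, by omega⟩
    · refine Constructible.zero _ (cl_pure (hF₁.1.mono Finset.subset_union_left) ?_)
      intro σ hσ
      rcases Finset.mem_union.1 hσ with h | h
      · exact h1 σ h
      · exact h2 σ h
    · have e1 := hF₁.2 (by omega)
      have e2 := hF₂.2 (by omega)
      have e3 := hQ.2 (by omega)
      have hG2 : cl G = cl F₁ ∩ cl F₂ := by
        ext ρ
        simp only [cl, Set.mem_inter_iff, Set.mem_ofPred_eq]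
        rw [hρ ρ]
        constructor
        · rintro ⟨σ, hσ, τ, hτ, h3, h4⟩
          exact ⟨⟨σ, hσ, h3⟩, ⟨τ, hτ, h4⟩⟩
        · rintro ⟨⟨σ, hσ, h3⟩, ⟨τ, hτ, h4⟩⟩
          exact ⟨σ, hσ, τ, hτ, h3, h4⟩
      rw [hG2] at e3
      rw [hcl]
      exact Constructible.union l _ _ e1 e2 e3

/-- There is a simplicial 3-sphere, with vertices in a set of 18 elements, which is constructible
but not shellable. -/
theorem result : ∃ C : Set (Finset (Fin 18)), IsPure 3 C ∧
    Nonempty (Realization C ≃ₜ Metric.sphere (0 : EuclideanSpace ℝ (Fin 4)) 1) ∧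
    Constructible 3 C ∧ ¬ Shellable 3 C := by
  classical
  have hcon := constructible Q closed_Q
  have hcard : ∀ σ ∈ toFF facets, σ.card = 4 := by
    intro σ hσ
    obtain ⟨m, hm, rfl⟩ := (mem_toFF _ _).1 hσ
    exact facets_card4 m hm
  refine ⟨cl (toFF facets), cl_pure hcon.1 hcard, ?_, hcon.2 (by norm_num), ?_⟩
  · have h1 : Realization (cl (toFF facets)) = Rz (toFF facets) := by
      ext x
      simp only [Realization, Rz, cl, Set.mem_ofPred_eq]
      refine and_congr_right fun _ => and_congr_right fun _ => ?_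
      constructor
      · rintro ⟨σ, ⟨τ, hτ, h2⟩, h3⟩
        exact ⟨τ, hτ, fun i hi => h2 ((h3 i).2 hi)⟩
      · rintro ⟨τ, hτ, h2⟩
        refine ⟨Finset.univ.filter fun i => x i ≠ 0, ⟨τ, hτ, fun i hi => ?_⟩, fun i => by simp⟩
        exact h2 i (Finset.mem_filter.1 hi).2
    rw [h1]
    exact sphere_homeo
  · rintro ⟨-, m, F, hinj, hF, hsh⟩
    have hnod : (List.ofFn F).Nodup := List.nodup_ofFn.2 hinj
    have hset : (List.ofFn F).toFinset = toFF facets := by
      ext σ
      rw [List.mem_toFinset, List.mem_ofFn, hF]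
      constructor
      · rintro ⟨⟨τ, hτ, h1⟩, h2⟩
        rw [Finset.eq_of_subset_of_card_le h1 (by rw [hcard τ hτ, h2])]
        exact hτ
      · intro h
        exact ⟨⟨σ, h, Finset.Subset.refl _⟩, hcard σ h⟩
    have h4 : ∀ j, (F j).card = 4 := fun j => ((hF (F j)).1 ⟨j, rfl⟩).2
    refine not_shellable (List.ofFn F) hnod hset fun i j hij => ?_
    have hlen : (List.ofFn F).length = m := List.length_ofFn
    set i' : Fin m := i.cast hlen with hi'
    set j' : Fin m := j.cast hlen with hj'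
    have ei : (List.ofFn F).get i = F i' := by simp [hi']; rfl
    have ej : (List.ofFn F).get j = F j' := by simp [hj']; rfl
    have hij' : i' < j' := hij
    have hpure := hsh j' (by
      have : (i' : ℕ) < j' := hij'
      omega)
    obtain ⟨τ, ⟨h5, k, hk, h6⟩, h7, h8⟩ := hpure.2 (F i' ∩ F j')
      ⟨Finset.inter_subset_right, i', hij', Finset.inter_subset_left⟩
    refine ⟨k.cast hlen.symm, hk, ?_, ?_⟩
    · have ek : (List.ofFn F).get (k.cast hlen.symm) = F k := by simp
      rw [ei, ej, ek]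
      exact h7.trans (Finset.subset_inter h6 h5)
    · have ek : (List.ofFn F).get (k.cast hlen.symm) = F k := by simp
      rw [ej, ek]
      have h9 : (F k ∩ F j').card = 3 := by
        refine le_antisymm ?_ ?_
        · have h10 : (F k ∩ F j').card ≤ 4 := by
            rw [← h4 j']
            exact Finset.card_le_card Finset.inter_subset_right
          rcases Nat.lt_or_ge (F k ∩ F j').card 4 with h11 | h11
          · omega
          · exfalso
            have h12 : F k ∩ F j' = F j' :=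
              Finset.eq_of_subset_of_card_le Finset.inter_subset_right (by rw [h4 j']; exact h11)
            have h13 : F k ∩ F j' = F k :=
              Finset.eq_of_subset_of_card_le Finset.inter_subset_left (by rw [h4 k]; exact h11)
            have h14 : k = j' := hinj (h13.symm.trans h12)
            rw [h14] at hk
            exact lt_irrefl _ hk
        · have h8' : τ.card = 3 := h8
          rw [← h8']
          exact Finset.card_le_card (Finset.subset_inter h6 h5)
      have h10 := Finset.card_sdiff_add_card_inter (F j') (F k)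
      rw [Finset.inter_comm, h9, h4 j'] at h10
      omega

end Pool.Agent.Results.MP_7470ba_co.ThreeSphere
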